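import Pool.Agent.Y95.Q.K3

/-!
# Hassett's conjecture for cubic fourfolds with many planes

Let `X` be a smooth cubic fourfold and `N` the number of planes in `X`. It is proved that `X` is
rational and has an associated K3 surface (so that the conjecture holds for `X`) in the following
cases:

* `N ≥ 12` and `N` is not one of `13`, `15`, `17`, `19`, `21`, `27`; in particular if `N` is even and
  at least `12`, and if `N ≥ 28`;
* some plane in `X` meets at least `21` other planes in lines (equivalently, at least `11` fibres of
  the quadric surface fibration given by the plane are unions of two planes, or the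
  discriminant curve has at least `11` nodes);
* `X` contains `12` planes which meet pairwise in one point;
* `N ≥ 2 ^ (23 - ρ)`, where `ρ ≤ 21` is the rank of the group `A(X)` of Hodge classes; for instance
  `ρ = 21` and `N ≥ 4`, or `ρ = 20` and `N ≥ 8`;
* `N = 27` and some plane does not meet exactly `10` other planes in lines (the numbers `27` and `10`
  occur for the very general cubic fourfold with an Eckardt point, the cone over a cubic surface,
  which has no associated K3 surface and is expected to be irrational).

The known facts which are used are collected in `H4.IsCohomology`: the lattice `H^4(X, ℤ)` is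
unimodular of rank `23`; the Hodge classes are positive definite; Voisin's theorem that the classes of
the planes are the Hodge classes `v` with `v.h = 1`, `v.v = 3`; the discriminants `2` and `6` do
not occur (Voisin, Hassett); and Hassett's theorem that `X` is rational if `T.(h - P)` is odd for
some plane `P` and Hodge class `T`. The conclusion `HasK3` is Hassett's criterion for the existence
of a polarised K3 surface `(S, H)` with a primitive isometric embedding of `H^2(S, ℤ)_pr` in
`H^4(X, ℤ)_pr`.

Idea: suppose that `T.(h - P)` is even for all `P` and `T`. Then two different planes meet in a
point or in a line (intersection number `1` or `-1`), and the planes and the triples of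
planes with sum `h` are the points and lines of a partial geometry with one line through a point
`P` meeting a given line not through `P`: either there are no lines, or all lines pass through one
point, or it is a generalised quadrangle with `3 + 6 t` points, where `t ≤ 4` by Bessel's
inequality. In the first two cases the classes `h - P` span a large subspace of `H^4(X, 𝔽_2)`,
which is orthogonal to the large space of all Hodge classes, and the number of the planes
is bounded since the form is nondegenerate.
-/

namespace Pool.Agent.Results.MP_ffd2c1_ag.ManyPlanes

open Pool.Agent.Y95.Q

/-- **Cubic fourfolds with many planes are rational and have associated K3 surfaces.** -/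
theorem result {X : CubicFourfold} {H : H4 X} (hH : H.IsCohomology)
    (h : (12 ≤ Nat.card X.Plane ∧ Nat.card X.Plane ∉ ({13, 15, 17, 19, 21, 27} : Finset ℕ)) ∨
      (∃ P : X.Plane, 21 ≤ Nat.card {Q : X.Plane // H.ip (H.cl P) (H.cl Q) = -1}) ∨
      (∃ P : Fin 12 → X.Plane, ∀ i j, i ≠ j → H.ip (H.cl (P i)) (H.cl (P j)) = 1) ∨
      2 ^ (23 - H.rank) ≤ Nat.card X.Plane ∨
      (Nat.card X.Plane = 27 ∧
        ∃ P : X.Plane, Nat.card {Q : X.Plane // H.ip (H.cl P) (H.cl Q) = -1} ≠ 10)) :
    X.IsRational ∧ H.HasK3 := by
  rcases h with ⟨h1, h2⟩ | ⟨P, hP⟩ | ⟨P, hP⟩ | h | ⟨h1, P, hP⟩
  · exact hH.final h1 h2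
  · exact hH.final_adj P hP
  · exact hH.final_twelve P hP
  · exact hH.final_rank h
  · exact hH.final_27 h1 P hP

end Pool.Agent.Results.MP_ffd2c1_ag.ManyPlanes
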