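import Mathlib
import Pool.Agent.Y201.LI.SecD

/-! # Cubic fourfolds containing a plane: secants and families of conics through the plane -/

set_option autoImplicit false

namespace Pool.Agent.Results.MP_ffd2c1_ag.PlaneSecants

open MvPolynomial

/-- `F` is the equation of a smooth cubic fourfold -/
def CubicFourfold (F : MvPolynomial (Fin 6) ℂ) : Prop :=
  F.IsHomogeneous 3 ∧ ∀ z : Fin 6 → ℂ, (∀ i, eval z (pderiv i F) = 0) → z = 0

/-- the vectors `p 0, p 1, p 2` are a basis of a plane contained in `F = 0` -/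
def Plane (F : MvPolynomial (Fin 6) ℂ) (p : Fin 3 → Fin 6 → ℂ) : Prop :=
  LinearIndependent ℂ p ∧ ∀ c : Fin 3 → ℂ, eval (∑ a, c a • p a) F = 0

/-- the fibration of the fourfold in the quadric surfaces residual to the plane has a rational
section: there are polynomials `W ≠ 0` and `V a` such that the point `W X + ∑ V a p a` of the
3-space spanned by the plane and the generic point `X` of projective space is on `F = 0` -/
def HasSection (F : MvPolynomial (Fin 6) ℂ) (p : Fin 3 → Fin 6 → ℂ) : Prop :=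
  ∃ (V : Fin 3 → MvPolynomial (Fin 6) ℂ) (W : MvPolynomial (Fin 6) ℂ), W ≠ 0 ∧
    aeval (fun i => W * X i + ∑ a, V a * C (p a i)) F = 0

/-- the field generated over `ℂ` by the ratios of the coordinates of `x` -/
noncomputable def ratios {M : Type} [Field M] [Algebra ℂ M] (x : Fin 6 → M) :
    IntermediateField ℂ M :=
  IntermediateField.adjoin ℂ {z : M | ∃ i j, z = x i / x j}

/-- `x` is a generic point of `F = 0` with coordinates in `M`, and `M` has finite odd degree over
the function field `ratios x` of the fourfold -/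
def OddPoint (F : MvPolynomial (Fin 6) ℂ) {M : Type} [Field M] [Algebra ℂ M]
    (x : Fin 6 → M) : Prop :=
  aeval x F = 0 ∧
  (∀ (e : ℕ) (H : MvPolynomial (Fin 6) ℂ), H.IsHomogeneous e → aeval x H = 0 → F ∣ H) ∧
  Odd (Module.finrank (ratios x) M)

/-- `mu` is a point of `F = 0` which is on a proper closed subset of `F = 0` -/
def SpecialPoint (F : MvPolynomial (Fin 6) ℂ) {M : Type} [Field M] [Algebra ℂ M]
    (mu : Fin 6 → M) : Prop :=
  mu ≠ 0 ∧ aeval mu F = 0 ∧
  ∃ (e : ℕ) (H : MvPolynomial (Fin 6) ℂ), H.IsHomogeneous e ∧ aeval mu H = 0 ∧ ¬ F ∣ H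

/-- `lam` is a point of the plane with coordinates in `M` -/
def InPlane (p : Fin 3 → Fin 6 → ℂ) {M : Type} [Field M] [Algebra ℂ M]
    (lam : Fin 6 → M) : Prop :=
  lam ≠ 0 ∧ ∃ c : Fin 3 → M, ∀ i, lam i = ∑ a, c a * algebraMap ℂ M (p a i)

/-- the third point of `F = 0` on the line through the points `x` and `lam` of `F = 0` -/
noncomputable def third (F : MvPolynomial (Fin 6) ℂ) {M : Type} [Field M] [Algebra ℂ M]
    (x lam : Fin 6 → M) : Fin 6 → M := fun i =>
  (∑ k, x k * aeval lam (pderiv k F)) * x i - (∑ k, lam k * aeval x (pderiv k F)) * lam i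

/-- there is a point `lam` of the plane such that the third point of the line through `x` and
`lam` is not a generic point over which `M` has odd degree -/
def EvenThirdPoint (F : MvPolynomial (Fin 6) ℂ) (p : Fin 3 → Fin 6 → ℂ) {M : Type} [Field M]
    [Algebra ℂ M] (x : Fin 6 → M) : Prop :=
  ∃ lam : Fin 6 → M, InPlane p lam ∧ ¬ OddPoint F (third F x lam)

/-- `x` is on the line joining a point of the plane and a point of a proper closed subset -/
def OnSecant (F : MvPolynomial (Fin 6) ℂ) (p : Fin 3 → Fin 6 → ℂ) {M : Type} [Field M]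
    [Algebra ℂ M] (x : Fin 6 → M) : Prop :=
  ∃ (lam mu : Fin 6 → M) (a b : M), InPlane p lam ∧ SpecialPoint F mu ∧
    ∀ i, x i = a * lam i + b * mu i

/-- `(L, t, lam, Q, R)` is a family of conics of odd covering degree on `F = 0` with section `lam`:
`t ∈ M` is transcendental over the subfield `L`, the coordinates of `lam`, `Q`, `R` are in `L`, and
the point `t² lam + t Q + R` of the conic is a generic point of `F = 0` over which `M` has odd
degree -/
def ConicFamily (F : MvPolynomial (Fin 6) ℂ) {M : Type} [Field M] [Algebra ℂ M]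
    (L : IntermediateField ℂ M) (t : M) (lam Q R : Fin 6 → M) : Prop :=
  Transcendental L t ∧ (∀ i, lam i ∈ L) ∧ (∀ i, Q i ∈ L) ∧ (∀ i, R i ∈ L) ∧
    OddPoint F (fun i => t ^ 2 * lam i + t * Q i + R i)

theorem plane_points {F : MvPolynomial (Fin 6) ℂ} {p : Fin 3 → Fin 6 → ℂ} (hp : Plane F p)
    {M : Type} [Field M] [Algebra ℂ M] (c : Fin 3 → M) :
    aeval (fun i => ∑ a, c a * algebraMap ℂ M (p a i)) F = 0 := by
  have h1 : (aeval (fun i => ∑ a, X a * C (p a i)) F : MvPolynomial (Fin 3) ℂ) = 0 := by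
    apply MvPolynomial.funext
    intro v
    rw [map_zero, ← hp.2 v]
    have h2 := Pool.Agent.Y201.LI.eval_eq_aeval' v
      (aeval (fun i => ∑ a, X a * C (p a i)) F : MvPolynomial (Fin 3) ℂ)
    have h3 := comp_aeval (fun i => ∑ a, X a * C (p a i) : Fin 6 → MvPolynomial (Fin 3) ℂ)
      (aeval v : MvPolynomial (Fin 3) ℂ →ₐ[ℂ] ℂ)
    have h4 := congrArg (fun φ : MvPolynomial (Fin 6) ℂ →ₐ[ℂ] ℂ => φ F) h3
    rw [h2, Pool.Agent.Y201.LI.eval_eq_aeval']
    refine h4.trans ?_
    congr 2
    funext i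
    rw [map_sum, Finset.sum_apply]
    refine Finset.sum_congr rfl fun a _ => ?_
    rw [map_mul, aeval_X, aeval_C, Pi.smul_apply, smul_eq_mul]
    rfl
  have h3 := comp_aeval (fun i => ∑ a, X a * C (p a i) : Fin 6 → MvPolynomial (Fin 3) ℂ)
    (aeval c : MvPolynomial (Fin 3) ℂ →ₐ[ℂ] M)
  have h4 := congrArg (fun φ : MvPolynomial (Fin 6) ℂ →ₐ[ℂ] M => φ F) h3
  have h5 : aeval c (aeval (fun i => ∑ a, X a * C (p a i)) F : MvPolynomial (Fin 3) ℂ) = 0 := by
    rw [h1, map_zero]
  rw [← h5]
  refine Eq.trans ?_ h4.symm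
  congr 2
  funext i
  rw [map_sum]
  refine Finset.sum_congr rfl fun a _ => ?_
  rw [map_mul, aeval_X, aeval_C]

theorem result : ∀ F : MvPolynomial (Fin 6) ℂ, CubicFourfold F →
    ∀ p : Fin 3 → Fin 6 → ℂ, Plane F p →
      (∀ (M : Type) [Field M] [Algebra ℂ M] (x : Fin 6 → M), OddPoint F x →
        (HasSection F p ↔ OnSecant F p x) ∧ (HasSection F p ↔ EvenThirdPoint F p x)) ∧
      ∀ (M : Type) [Field M] [Algebra ℂ M] (L : IntermediateField ℂ M) (t : M)
        (lam Q R : Fin 6 → M), ConicFamily F L t lam Q R → InPlane p lam → HasSection F p := by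
  rintro F ⟨hF, hsm⟩ p hp
  have hF0 : F ≠ 0 := Pool.Agent.TH314.PD.ne_zero_of_smooth (m := 5) hsm
  refine ⟨?_, ?_⟩
  · rintro M _ _ x ⟨hx, hgen, hodd⟩
    -- section gives a secant
    have h1 : HasSection F p → OnSecant F p x := by
      intro hS
      obtain ⟨lam, mu, c, b, hc, hl0, hm0, hFm, hsp, hxb⟩ :=
        Pool.Agent.Y201.LI.exists_secant (n := 4) le_rfl hF hsm p hp.1 hp.2 hS x hx hgen hodd
      exact ⟨lam, mu, b, b, ⟨hl0, c, hc⟩, ⟨hm0, hFm, hsp⟩, hxb⟩
    -- a secant gives an even third point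
    have h2 : OnSecant F p x → EvenThirdPoint F p x := by
      rintro ⟨lam, mu, a, b, ⟨hl0, c, hc⟩, ⟨hm0, hFm, e, H, hH, hHm, hnd⟩, hxab⟩
      refine ⟨lam, ⟨hl0, c, hc⟩, ?_⟩
      rintro ⟨-, hg3, -⟩
      apply hnd
      apply hg3 e H hH
      have hlam : lam = fun i => ∑ a, c a * algebraMap ℂ M (p a i) := funext hc
      have hFl : aeval lam F = 0 := by
        rw [hlam]
        exact plane_points hp c
      obtain ⟨T, hT, hFT⟩ := Pool.Agent.Y201.C3.exists_tri F hF
      have hev : ∀ {R' : Type} [CommRing R'] [Algebra ℂ R'] (z : Fin 6 → R'),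
          aeval z F = Pool.Agent.Y201.C3.Bg T z z z := by
        intro R' _ _ z
        rw [hFT, Pool.Agent.Y201.C3.aeval_frmG]
      have ha : a ≠ 0 := by
        intro h
        apply hnd
        apply hgen e H hH
        have h3 : x = fun i => b * mu i := by
          funext i
          rw [hxab i, h]
          ring
        rw [h3, Pool.Agent.TH314.PD.aeval_smul_form hH, hHm, mul_zero]
      have hAeq : ∑ i, lam i * aeval x (pderiv i F) =
          3 * Pool.Agent.Y201.C3.Bg T x x lam := by
        rw [Pool.Agent.Y201.LI.sum_pderiv hT hFT, Pool.Agent.Y201.C3.Bg_swap12 hT lam x x,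
          Pool.Agent.Y201.C3.Bg_swap23 hT x lam x]
      have hBeq : ∑ i, x i * aeval lam (pderiv i F) =
          3 * Pool.Agent.Y201.C3.Bg T x lam lam := Pool.Agent.Y201.LI.sum_pderiv hT hFT x lam
      have hAB : ∑ i, lam i * aeval x (pderiv i F) =
          a * ∑ i, x i * aeval lam (pderiv i F) := by
        have h1 := Pool.Agent.Y201.LI.Bg_cube hT 1 (-a) x lam
        have h2 : (fun i => 1 * x i + -a * lam i) = fun i => b * mu i := by
          funext i
          rw [hxab i]
          ring
        rw [h2, ← hev, Pool.Agent.TH314.PD.aeval_smul_form hF, hFm, ← hev x, hx, ← hev lam,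
          hFl] at h1
        have h3 : a * (∑ i, lam i * aeval x (pderiv i F) -
            a * ∑ i, x i * aeval lam (pderiv i F)) = 0 := by
          rw [hAeq, hBeq]
          linear_combination h1
        exact sub_eq_zero.1 ((mul_eq_zero.1 h3).resolve_left ha)
      have h3 : third F x lam = fun i => ((∑ k, x k * aeval lam (pderiv k F)) * b) * mu i := by
        funext i
        unfold third
        rw [hAB, hxab i]
        ring
      rw [h3, Pool.Agent.TH314.PD.aeval_smul_form hH, hHm, mul_zero]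
    -- an even third point gives a section
    have h3 : EvenThirdPoint F p x → HasSection F p := by
      rintro ⟨lam, ⟨hl0, c, hc⟩, hno⟩
      by_contra hns
      apply hno
      have hlam : lam = fun i => ∑ a, c a * algebraMap ℂ M (p a i) := funext hc
      have hFl : aeval lam F = 0 := by
        rw [hlam]
        exact plane_points hp c
      exact Pool.Agent.Y201.LI.third_point (n := 4) hF hsm x lam hx hgen hodd hl0 hFl
        (Pool.Agent.Y201.LI.nongen_lin (n := 4) hF (by norm_num) hF0 p hp.2 lam c hc)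
        fun hz ho => Pool.Agent.Y201.LI.no_lin (n := 4) hF hsm x lam hx p hp.1 hp.2 hns c hc hz ho
    exact ⟨⟨h1, fun h => h3 (h2 h)⟩, ⟨fun h => h2 (h1 h), h3⟩⟩
  · rintro M _ _ L t lam Q R ⟨ht, hl, hQ, hR, hx, hgen, hodd⟩ ⟨-, c, hc⟩
    exact Pool.Agent.Y201.LI.conic_section (n := 4) Pool.Agent.Y201.LI.hthree hF hsm L t ht lam Q R
      hl hQ hR hx hgen hodd p hp.1 hp.2 c hc

end Pool.Agent.Results.MP_ffd2c1_ag.PlaneSecants
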